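import Pool.Agent.helper5.EY.St
import Pool.Agent.helper5.EY.ZZ
import Pool.Agent.helper50.EY.Open
import Pool.Agent.helper50.EY.ClassE

set_option autoImplicit false
set_option linter.unusedSectionVars false

/-!
# U-Gen: the general step `φ = ψ + ε B` of the construction (U): conditions `wh`, `nd`, `ndx`, `ZZ` for small `ε`

`ψ : MvPolynomial (Option ι) ℂ` (`none = σ`, `some i = x_i`) for any finite `ι`; the new variable `w` is `some none`,
`up ψ = rename (Option.map some) ψ : MvPolynomial (Option (Option ι)) ℂ`.  For `ι = Option τ` the form `ψ` is a form of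
the previous level of (U) (`some none = l`).
-/

namespace EY

open MvPolynomial Filter Topology

theorem ZZ.crit {τ : Type} {φ : MvPolynomial (Option (Option τ)) ℂ} (h : ZZ φ) : Crit φ := by
  intro p hp v
  rw [h p hp]; rfl

/-- `ψ(0; x)` is nonsingular -/
def Nds {ι : Type} (ψ : MvPolynomial (Option ι) ℂ) : Prop :=
  ∀ p : Option ι → ℂ, p none = 0 → (∀ i : ι, eval p (pderiv (some i) ψ) = 0) → p = 0

/-- the part of `St` which does not involve `E` -/
structure Nd (τ : Type) [Fintype τ] (q : ℕ) (φ : MvPolynomial (Option (Option τ)) ℂ) : Prop where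
  wh : wh (vw τ) (q + 1) φ
  ndx : ∀ p : Option (Option τ) → ℂ, p none = 0 → p (some none) = 0 →
    (∀ i, eval p (pderiv (some (some i)) φ) = 0) → p = 0
  nd : ∀ p : Option (Option τ) → ℂ, p none = 0 → (∀ v : Option τ, eval p (pderiv (some v) φ) = 0) → p = 0

theorem St.toNd {τ : Type} [Fintype τ] {q E : ℕ} {φ : MvPolynomial (Option (Option τ)) ℂ} (h : St τ q E φ) :
    Nd τ q φ := ⟨h.wh, h.ndx, h.nd⟩

theorem Nd.toNds {τ : Type} [Fintype τ] {q : ℕ} {φ : MvPolynomial (Option (Option τ)) ℂ} (h : Nd τ q φ) :
    Nds φ := h.nd

theorem vw_eq (τ : Type) : vw τ = w21 (Option τ) := rfl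

/-- values of a weighted homogeneous polynomial at scaled points -/
theorem eval_wh46 {σ : Type*} [Fintype σ] {v : σ → ℕ} {n : ℕ} {ψ : MvPolynomial σ ℂ} (h : wh v n ψ) (c : ℂ)
    (y : σ → ℂ) : eval (fun i => c ^ v i * y i) ψ = c ^ n * eval y ψ := by
  have := aeval_wh (B := ℂ) h c y
  simpa [aeval_def, eval₂_eq', eval_eq', Algebra.algebraMap_self] using this

theorem wh_isWeightedHomogeneous {σ : Type*} [Fintype σ] {v : σ → ℕ} {n : ℕ} {ψ : MvPolynomial σ ℂ}
    (h : wh v n ψ) : IsWeightedHomogeneous v ψ n := by
  intro α hα
  rw [← h α hα, wd, Finsupp.weight_apply, Finsupp.sum_fintype _ _ (by simp)]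
  exact Finset.sum_congr rfl fun i _ => by rw [smul_eq_mul, mul_comm]

/-- Euler's identity at a point -/
theorem euler_eval {σ : Type*} [Fintype σ] {v : σ → ℕ} {n : ℕ} {ψ : MvPolynomial σ ℂ} (h : wh v n ψ)
    (p : σ → ℂ) : ∑ i, (v i : ℂ) * (p i * eval p (pderiv i ψ)) = n * eval p ψ := by
  have h1 := (wh_isWeightedHomogeneous h).sum_weight_X_mul_pderiv
  have h2 := congrArg (eval p) h1
  simpa [map_sum, nsmul_eq_mul, map_mul] using h2

/-! ### the embedding of the variables of the previous level -/

/-- a polynomial of the previous level, in the variables of the next level -/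
noncomputable def up {ι : Type} (ψ : MvPolynomial (Option ι) ℂ) : MvPolynomial (Option (Option ι)) ℂ :=
  rename (Option.map some) ψ

theorem optmap_inj {ι : Type} : Function.Injective (Option.map (some : ι → Option ι)) :=
  Option.map_injective (Option.some_injective _)

theorem eval_up {ι : Type} (ψ : MvPolynomial (Option ι) ℂ) (p : Option (Option ι) → ℂ) :
    eval p (up ψ) = eval (fun o => p (Option.map some o)) ψ := by
  unfold up; rw [eval_rename]; rfl

theorem pderiv_up_none {ι : Type} (ψ : MvPolynomial (Option ι) ℂ) :
    pderiv none (up ψ) = up (pderiv none ψ) := by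
  unfold up
  exact pderiv_rename (f := Option.map (some : ι → Option ι)) optmap_inj (x := none) (p := ψ)

theorem pderiv_up_some {ι : Type} (ψ : MvPolynomial (Option ι) ℂ) (i : ι) :
    pderiv (some (some i)) (up ψ) = up (pderiv (some i) ψ) := by
  unfold up
  exact pderiv_rename (f := Option.map (some : ι → Option ι)) optmap_inj (x := some i) (p := ψ)

theorem pderiv_up_w {ι : Type} (ψ : MvPolynomial (Option ι) ℂ) : pderiv (some none) (up ψ) = 0 := by
  classical
  unfold up
  apply pderiv_eq_zero_of_notMem_vars
  intro hmem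
  obtain ⟨o, _, ho⟩ := Finset.mem_image.mp (vars_rename _ ψ hmem)
  rcases o with _ | o <;> simp at ho

theorem wh_up {ι : Type} [Fintype ι] {n : ℕ} {ψ : MvPolynomial (Option ι) ℂ} (h : wh (w21 ι) n ψ) :
    wh (vw ι) n (up ψ) := by
  classical
  intro β hβ
  unfold up at hβ
  obtain ⟨α, hα, hc⟩ := coeff_rename_ne_zero _ _ _ hβ
  rw [← h α hc, ← hα]
  unfold wd
  have hinj := optmap_inj (ι := ι)
  rw [Fintype.sum_option, Fintype.sum_option, Fintype.sum_option]
  have h2 : ∀ i : Option ι, (Finsupp.mapDomain (Option.map some) α) (Option.map some i) = α i :=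
    fun i => Finsupp.mapDomain_apply hinj α i
  have h3 : (Finsupp.mapDomain (Option.map (some : ι → _)) α) (some none) = 0 := by
    apply Finsupp.mapDomain_of_notMem_range
    rintro ⟨o, ho⟩
    rcases o with _ | o <;> simp at ho
  have h4 := h2 none
  simp only [Option.map_none] at h4
  rw [h4, h3]
  have h5 : ∀ i : ι, (Finsupp.mapDomain (Option.map some) α) (some (some i)) = α (some i) := fun i => by
    have := h2 (some i)
    simpa using this
  simp only [h5]
  simp [vw, w21]

/-! ### the general step -/

section step

variable {ι : Type} [Fintype ι] [DecidableEq ι] {q : ℕ}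

/-- the point `(0; w, x)` -/
def pt0 (x : Option ι → ℂ) : Option (Option ι) → ℂ := fun o => o.elim 0 x

/-- the point with `σ = s²` -/
def ptS (x : Option (Option ι) → ℂ) : Option (Option ι) → ℂ :=
  fun o => o.elim (x none ^ 2) fun i => x (some i)

theorem continuous_pt0 : Continuous (pt0 : (Option ι → ℂ) → Option (Option ι) → ℂ) := by
  refine continuous_pi fun o => ?_
  rcases o with _ | i
  · exact continuous_const
  · exact continuous_apply i

theorem continuous_ptS : Continuous (ptS : (Option (Option ι) → ℂ) → Option (Option ι) → ℂ) := by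
  refine continuous_pi fun o => ?_
  rcases o with _ | i
  · exact (continuous_apply none).pow 2
  · exact continuous_apply (some i)

theorem eval_pt0_smul {n : ℕ} {ψ : MvPolynomial (Option (Option ι)) ℂ} (h : wh (vw ι) n ψ)
    (c : ℂ) (x : Option ι → ℂ) : eval (pt0 (c • x)) ψ = c ^ n * eval (pt0 x) ψ := by
  rw [← eval_wh46 h]
  congr 2
  funext o
  rcases o with _ | i <;> simp [pt0, vw]

theorem eval_ptS_smul {n : ℕ} {ψ : MvPolynomial (Option (Option ι)) ℂ} (h : wh (vw ι) n ψ)
    (c : ℂ) (x : Option (Option ι) → ℂ) : eval (ptS (c • x)) ψ = c ^ n * eval (ptS x) ψ := by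
  rw [← eval_wh46 h]
  congr 2
  funext o
  rcases o with _ | i <;> simp [ptS, vw, mul_pow]

/-- the system `(A, φ_x)` -/
noncomputable def genSys (φ B A : MvPolynomial (Option (Option ι)) ℂ) (t : ℂ) :
    Option ι → MvPolynomial (Option (Option ι)) ℂ
  | none => A
  | some i => pderiv (some (some i)) φ + C t * pderiv (some (some i)) B

/-- the system `(φ, A, φ_x)` -/
noncomputable def genSysZ (φ B A : MvPolynomial (Option (Option ι)) ℂ) (t : ℂ) :
    Option (Option ι) → MvPolynomial (Option (Option ι)) ℂ
  | none => φ + C t * B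
  | some i => genSys φ B A t i

theorem wh_genSys {φ B A : MvPolynomial (Option (Option ι)) ℂ} (hφ : wh (vw ι) (q + 1) φ)
    (hB : wh (vw ι) (q + 1) B) (hA : pderiv (some none) B = A) (t : ℂ) (i : Option ι) :
    wh (vw ι) q (genSys φ B A t i) := by
  rcases i with _ | i
  · unfold genSys
    rw [← hA]
    exact wh_pderiv hB _ _ rfl
  · exact wh_add (wh_pderiv hφ _ _ rfl) (wh_C_mul _ (wh_pderiv hB _ _ rfl))

theorem continuous_evalpt {κ ι : Type*} [Fintype κ] [Fintype ι] {f : (κ → ℂ) → ι → ℂ} (hf : Continuous f)
    (P Q : MvPolynomial ι ℂ) : Continuous fun z : ℂ × (κ → ℂ) => eval (f z.2) P + z.1 * eval (f z.2) Q := by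
  have h1 : ∀ P : MvPolynomial ι ℂ, Continuous fun z : ℂ × (κ → ℂ) => eval (f z.2) P := fun P =>
    (MvPolynomial.continuous_eval P).comp (hf.comp continuous_snd)
  exact (h1 P).add (continuous_fst.mul (h1 Q))

/-- the conditions `wh`, `ndx`, `nd` for `φ = ψ + ε B`, `ε` small -/
theorem gen_nd {ψ : MvPolynomial (Option ι) ℂ} (hψ : wh (w21 ι) (q + 1) ψ) (hnd : Nds ψ)
    {B A : MvPolynomial (Option (Option ι)) ℂ} (hB : wh (vw ι) (q + 1) B)
    (hA : pderiv (some none) B = A)
    (hA0 : ∀ p : Option (Option ι) → ℂ, p none = 0 → (∀ i, p (some (some i)) = 0) → eval p A = 0 →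
      p (some none) = 0) :
    ∀ᶠ ε in 𝓝 (0 : ℂ), ε ≠ 0 → Nd ι q (up ψ + C ε * B) := by
  have hup := wh_up hψ
  have key : ∀ x : Option ι → ℂ,
      (∀ i, eval (pt0 x) (pderiv (some (some i)) (up ψ)) = 0) → ∀ i, x (some i) = 0 := by
    intro x hx i
    have h1 := hnd (fun o => pt0 x (Option.map some o)) rfl (fun v => by
      have := hx v
      rwa [pderiv_up_some, eval_up] at this)
    exact congrFun h1 (some i)
  -- `nd`
  have e1 : ∀ᶠ ε in 𝓝 (0 : ℂ), ∀ x : Option ι → ℂ,
      (∀ i, eval (pt0 x) (genSys (up ψ) B A ε i) = 0) → x = 0 := by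
    refine open_zero (fun i t x => eval (pt0 x) (genSys (up ψ) B A t i)) (fun _ => q) ?_ ?_ 0 ?_
    · intro i
      rcases i with _ | i
      · have := continuous_evalpt (continuous_pt0 (ι := ι)) A 0
        simpa [genSys] using this
      · have := continuous_evalpt (continuous_pt0 (ι := ι)) (pderiv (some (some i)) (up ψ))
          (pderiv (some (some i)) B)
        simpa [genSys] using this
    · intro i t c x
      exact eval_pt0_smul (wh_genSys hup hB hA t i) c x
    · intro x hx
      have hx1 := key x fun i => by
        have := hx (some i)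
        simpa [genSys] using this
      have hx2 := hA0 (pt0 x) rfl (fun i => hx1 i) (hx none)
      funext o
      rcases o with _ | i
      · exact hx2
      · exact hx1 i
  -- `ndx`
  have e2 : ∀ᶠ ε in 𝓝 (0 : ℂ), ∀ x : ι → ℂ,
      (∀ i, eval (pt0 (fun o => o.elim 0 x)) (pderiv (some (some i)) (up ψ) +
        C ε * pderiv (some (some i)) B) = 0) → x = 0 := by
    have hc : Continuous fun x : ι → ℂ => (pt0 (fun o => o.elim 0 x) : Option (Option ι) → ℂ) := by
      refine continuous_pt0.comp (continuous_pi fun o => ?_)
      rcases o with _ | i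
      · exact continuous_const
      · exact continuous_apply i
    refine open_zero (fun i t x => eval (pt0 (fun o => o.elim 0 x)) (pderiv (some (some i)) (up ψ) +
        C t * pderiv (some (some i)) B)) (fun _ => q) ?_ ?_ 0 ?_
    · intro i
      have := continuous_evalpt hc (pderiv (some (some i)) (up ψ)) (pderiv (some (some i)) B)
      simpa using this
    · intro i t c x
      have h5 := eval_pt0_smul (wh_genSys hup hB hA t (some i)) c (fun o => o.elim 0 x)
      have h6 : (c • fun o : Option ι => o.elim 0 x) = fun o => o.elim 0 (c • x) := by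
        funext o
        rcases o with _ | i <;> simp
      rw [h6] at h5
      exact h5
    · intro x hx
      have hx1 := key (fun o => o.elim 0 x) fun i => by
        have := hx i
        simpa using this
      funext i
      exact hx1 i
  filter_upwards [e1, e2] with ε h1 h2 hε
  refine ⟨wh_add hup (wh_C_mul _ hB), ?_, ?_⟩
  · intro p hp0 hp1 hp
    have h3 := h2 (fun i => p (some (some i))) (fun i => by
      have h4 := hp i
      rw [map_add, pderiv_C_mul] at h4
      have h5 : pt0 (fun o : Option ι => o.elim 0 fun i => p (some (some i))) = p := by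
        funext o
        rcases o with _ | _ | i
        · exact hp0.symm
        · exact hp1.symm
        · rfl
      rw [h5]
      exact h4)
    funext o
    rcases o with _ | _ | i
    · exact hp0
    · exact hp1
    · exact congrFun h3 i
  · intro p hp0 hp
    have hp' : pt0 (fun o => p (some o)) = p := by
      funext o
      rcases o with _ | i
      · exact hp0.symm
      · rfl
    have h3 := h1 (fun o => p (some o)) (fun i => by
      rw [hp']
      rcases i with _ | i
      · have h4 := hp none
        rw [map_add, pderiv_C_mul, pderiv_up_w, zero_add, hA, map_mul, eval_C] at h4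
        exact (mul_eq_zero.mp h4).resolve_left hε
      · have h4 := hp (some i)
        rw [map_add, pderiv_C_mul] at h4
        exact h4)
    funext o
    rcases o with _ | i
    · exact hp0
    · exact congrFun h3 i

/-- the condition `ZZ` for `φ = ψ + ε B`, `ε` small -/
theorem gen_ZZ {ψ : MvPolynomial (Option ι) ℂ} (hψ : wh (w21 ι) (q + 1) ψ) (hnd : Nds ψ) (hZ : ZZ ψ)
    {B A : MvPolynomial (Option (Option ι)) ℂ} (hB : wh (vw ι) (q + 1) B)
    (hA : pderiv (some none) B = A)
    (hA0 : ∀ p : Option (Option ι) → ℂ, p none = 0 → (∀ i, p (some (some i)) = 0) → eval p A = 0 →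
      p (some none) = 0) :
    ∀ᶠ ε in 𝓝 (0 : ℂ), ε ≠ 0 → ZZ (up ψ + C ε * B) := by
  have hup := wh_up hψ
  have e1 : ∀ᶠ ε in 𝓝 (0 : ℂ), ∀ x : Option (Option ι) → ℂ,
      (∀ i : Option (Option ι), eval (ptS x) (genSysZ (up ψ) B A ε i) = 0) → x = 0 := by
    refine open_zero (fun i t x => eval (ptS x) (genSysZ (up ψ) B A t i))
      (fun i => i.elim (q + 1) fun _ => q) ?_ ?_ 0 ?_
    · intro i
      rcases i with _ | _ | i
      · have := continuous_evalpt (continuous_ptS (ι := ι)) (up ψ) B
        simpa only [genSysZ, map_add, map_mul, eval_C] using this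
      · have := continuous_evalpt (continuous_ptS (ι := ι)) A 0
        simpa only [genSysZ, genSys, map_zero, mul_zero, add_zero] using this
      · have := continuous_evalpt (continuous_ptS (ι := ι)) (pderiv (some (some i)) (up ψ))
          (pderiv (some (some i)) B)
        simpa only [genSysZ, genSys, map_add, map_mul, eval_C] using this
    · intro i t c x
      rcases i with _ | i
      · exact eval_ptS_smul (wh_add hup (wh_C_mul _ hB)) c x
      · exact eval_ptS_smul (wh_genSys hup hB hA t i) c x
    · intro x hx
      have g1 : ∀ v : ι, eval (fun o => ptS x (Option.map some o)) (pderiv (some v) ψ) = 0 := fun v => by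
        have := hx (some (some v))
        rw [← eval_up, ← pderiv_up_some]
        simpa only [genSysZ, genSys, map_add, map_mul, eval_C, zero_mul, add_zero] using this
      have g0 : eval (fun o => ptS x (Option.map some o)) ψ = 0 := by
        have := hx none
        rw [← eval_up]
        simpa only [genSysZ, map_add, map_mul, eval_C, zero_mul, add_zero] using this
      have g2 := euler_eval hψ (fun o => ptS x (Option.map some o))
      rw [g0, mul_zero, Fintype.sum_option] at g2
      have g3 : ∑ i : ι, (w21 ι (some i) : ℂ) * (ptS x (Option.map some (some i)) *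
          eval (fun o => ptS x (Option.map some o)) (pderiv (some i) ψ)) = 0 :=
        Finset.sum_eq_zero fun i _ => by rw [g1 i]; ring
      rw [g3, add_zero] at g2
      have g4 : (fun o => ptS x (Option.map some o)) = 0 := by
        rcases mul_eq_zero.mp g2 with h | h
        · simp [w21] at h
        · rcases mul_eq_zero.mp h with h | h
          · exact hnd _ h g1
          · exact hZ _ fun v => by
              rcases v with _ | v
              · exact h
              · exact g1 v
      have h0 : x none ^ 2 = 0 := congrFun g4 none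
      have hi : ∀ i, x (some (some i)) = 0 := fun i => congrFun g4 (some i)
      have hw := hA0 (ptS x) h0 hi (hx (some none))
      funext o
      rcases o with _ | _ | i
      · exact pow_eq_zero_iff (two_ne_zero) |>.mp h0
      · exact hw
      · exact hi i
  filter_upwards [e1] with ε h1 hε
  intro p hp
  obtain ⟨s, hs⟩ := IsAlgClosed.exists_pow_nat_eq (p none) (n := 2) (by norm_num)
  have hp' : ptS (fun o => o.elim s fun i => p (some i)) = p := by
    funext o
    rcases o with _ | i
    · exact hs
    · rfl
  have hwφ : wh (vw ι) (q + 1) (up ψ + C ε * B) := wh_add hup (wh_C_mul _ hB)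
  have hval : eval p (up ψ + C ε * B) = 0 := by
    have := euler_eval hwφ p
    rw [Finset.sum_eq_zero fun i _ => by rw [hp i]; ring] at this
    rcases mul_eq_zero.mp this.symm with h | h
    · exact absurd h (by exact_mod_cast Nat.succ_ne_zero q)
    · exact h
  have h3 := h1 (fun o => o.elim s fun i => p (some i)) (fun i => by
    rw [hp']
    rcases i with _ | _ | i
    · exact hval
    · have h4 := hp (some none)
      rw [map_add, pderiv_C_mul, pderiv_up_w, zero_add, hA, map_mul, eval_C] at h4
      exact (mul_eq_zero.mp h4).resolve_left hε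
    · have h4 := hp (some (some i))
      rw [map_add, pderiv_C_mul] at h4
      exact h4)
  have hs0 : s = 0 := congrFun h3 none
  funext o
  rcases o with _ | i
  · rw [← hs, hs0]; simp
  · exact congrFun h3 (some i)

end step

end EY
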