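import Pool.Agent.helper46.U.Gen

set_option autoImplicit false
set_option linter.unusedSectionVars false

/-!
# U-Tran: transport of the states along an equivalence of the index types
-/

namespace EY

open MvPolynomial

section

variable {τ τ' : Type} [Fintype τ] [Fintype τ'] (e : τ ≃ τ')

theorem wh_renameEquiv {σ σ' : Type*} [Fintype σ] [Fintype σ'] (e : σ ≃ σ') {v' : σ' → ℕ} {v : σ → ℕ}
    (hv : ∀ i, v' (e i) = v i) {n : ℕ} {ψ : MvPolynomial σ ℂ} (h : wh v n ψ) : wh v' n (rename e ψ) := by
  classical
  intro β hβ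
  obtain ⟨α, hα, hc⟩ := coeff_rename_ne_zero _ _ _ hβ
  rw [← h α hc, ← hα]
  unfold wd
  rw [← Equiv.sum_comp e]
  refine Finset.sum_congr rfl fun i _ => ?_
  rw [hv, Finsupp.mapDomain_apply e.injective]

/-- the equivalence on `Option (Option τ)` -/
def e2 : Option (Option τ) ≃ Option (Option τ') := Equiv.optionCongr (Equiv.optionCongr e)

/-- the form in the new variables -/
noncomputable def tr (φ : MvPolynomial (Option (Option τ)) ℂ) : MvPolynomial (Option (Option τ')) ℂ :=
  rename (e2 e) φ

theorem pderiv_tr (φ : MvPolynomial (Option (Option τ)) ℂ) (v : Option (Option τ)) :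
    pderiv (e2 e v) (tr e φ) = tr e (pderiv v φ) := by
  unfold tr
  exact pderiv_rename (f := (e2 e : Option (Option τ) → Option (Option τ'))) (e2 e).injective (x := v) (p := φ)

theorem eval_tr (φ : MvPolynomial (Option (Option τ)) ℂ) (p : Option (Option τ') → ℂ) :
    eval p (tr e φ) = eval (fun o => p (e2 e o)) φ := by
  unfold tr; rw [eval_rename]; rfl

theorem ev1_tr (ψ : MvPolynomial (Option (Option τ)) ℂ) :
    ev1 (tr e ψ) = rename (Equiv.optionCongr e) (ev1 ψ) := by
  have h : (ev1 (τ := τ')).comp (rename (e2 e)) = (rename (Equiv.optionCongr e)).comp (ev1 (τ := τ)) := by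
    apply MvPolynomial.algHom_ext
    intro o
    rcases o with _ | _ | i <;> simp [ev1, e2]
  exact AlgHom.congr_fun h ψ

theorem critOne_tr (φ : MvPolynomial (Option (Option τ)) ℂ) (o : Option τ) :
    critOne (tr e φ) (Equiv.optionCongr e o) = rename (Equiv.optionCongr e) (critOne φ o) := by
  unfold critOne
  rw [← ev1_tr]
  congr 1
  exact pderiv_tr e φ (some o)

theorem span_critOne_tr (φ : MvPolynomial (Option (Option τ)) ℂ) :
    Ideal.span (Set.range (critOne (tr e φ))) =
      (Ideal.span (Set.range (critOne φ))).map (renameEquiv ℂ (Equiv.optionCongr e) : _ →+* _) := by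
  rw [Ideal.map_span, ← Set.range_comp]
  congr 1
  ext f
  constructor
  · rintro ⟨o, rfl⟩
    refine ⟨(Equiv.optionCongr e).symm o, ?_⟩
    have := critOne_tr e φ ((Equiv.optionCongr e).symm o)
    rw [Equiv.apply_symm_apply] at this
    rw [this]
    rfl
  · rintro ⟨o, rfl⟩
    exact ⟨Equiv.optionCongr e o, critOne_tr e φ o⟩

/-- the isomorphism of the `E`-rings -/
noncomputable def critEquiv (φ : MvPolynomial (Option (Option τ)) ℂ) :
    (MvPolynomial (Option τ) ℂ ⧸ Ideal.span (Set.range (critOne φ))) ≃ₐ[ℂ]
      (MvPolynomial (Option τ') ℂ ⧸ Ideal.span (Set.range (critOne (tr e φ)))) :=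
  Ideal.quotientEquivAlg _ _ (renameEquiv ℂ (Equiv.optionCongr e)) (span_critOne_tr e φ)

theorem St.congr {q E : ℕ} {φ : MvPolynomial (Option (Option τ)) ℂ} (h : St τ q E φ) :
    St τ' q E (tr e φ) where
  wh := wh_renameEquiv (e2 e) (by rintro (_ | _ | i) <;> rfl) h.wh
  ndx := by
    intro p h0 h1 hp
    have := h.ndx (fun o => p (e2 e o)) h0 h1 (fun i => by
      have h2 := hp (e i)
      have h3 := pderiv_tr e φ (some (some i))
      have h4 : e2 e (some (some i)) = some (some (e i)) := rfl
      rw [h4] at h3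
      rwa [h3, eval_tr] at h2)
    funext o
    have h5 := congrFun this ((e2 e).symm o)
    simpa using h5
  nd := by
    intro p h0 hp
    have := h.nd (fun o => p (e2 e o)) h0 (fun i => by
      have h2 := hp (Equiv.optionCongr e i)
      have h3 := pderiv_tr e φ (some i)
      have h4 : e2 e (some i) = some (Equiv.optionCongr e i) := rfl
      rw [h4] at h3
      rwa [h3, eval_tr] at h2)
    funext o
    have h5 := congrFun this ((e2 e).symm o)
    simpa using h5
  fin := by
    have := h.fin
    exact Module.Finite.equiv (critEquiv e φ).toLinearEquiv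
  len := by
    rw [← h.len]
    exact (critEquiv e φ).toLinearEquiv.finrank_eq.symm

theorem Crit.congr {φ : MvPolynomial (Option (Option τ)) ℂ} (h : Crit φ) : Crit (tr e φ) := by
  intro p hp v
  have := h (fun o => p (e2 e o)) (fun o => by
    have h2 := hp (e2 e o)
    rwa [pderiv_tr, eval_tr] at h2) ((Equiv.optionCongr e).symm v)
  have h5 : e2 e (some ((Equiv.optionCongr e).symm v)) = some v := by
    change some (Equiv.optionCongr e ((Equiv.optionCongr e).symm v)) = some v
    rw [Equiv.apply_symm_apply]
  rwa [h5] at this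

theorem ZZ.congr {φ : MvPolynomial (Option (Option τ)) ℂ} (h : ZZ φ) : ZZ (tr e φ) := by
  intro p hp
  have := h (fun o => p (e2 e o)) (fun o => by
    have h2 := hp (e2 e o)
    rwa [pderiv_tr, eval_tr] at h2)
  funext o
  have h5 := congrFun this ((e2 e).symm o)
  simpa using h5

end

end EY
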