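import Pool.Agent.helper46.U.Base

set_option autoImplicit false
set_option linter.unusedSectionVars false

/-!
# U-Asm: the assembly of (U) for even `q` from the level `K = 1` and the step (S2)
-/

namespace EY

open MvPolynomial

/-- (U) for even `q` -/
theorem u_even {q : ℕ} (hq : 2 ≤ q) (hev : Even q)
    (K1 : ∀ E, 2 * E ≤ q ^ 2 → ∃ φ : MvPolynomial (Option (Option (Fin 1))) ℂ, St (Fin 1) q E φ ∧ ZZ φ)
    (S2 : ∀ (K E s : ℕ) (ψ : MvPolynomial (Option (Option (Fin K))) ℂ), 1 ≤ K → s + 1 ≤ q → St (Fin K) q E ψ →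
      ZZ ψ → ∃ φ : MvPolynomial (Option (Option (Option (Fin K)))) ℂ,
        St (Option (Fin K)) q (E + s * (q ^ (K + 1) / 2)) φ ∧ ZZ φ) :
    ∀ K E, 2 * E ≤ q ^ (K + 1) → ∃ φ : MvPolynomial (Option (Option (Fin K))) ℂ,
      St (Fin K) q E φ ∧ Crit φ ∧ (1 ≤ K → ZZ φ) := by
  intro K
  induction K with
  | zero =>
    intro E hE
    rw [zero_add, pow_one] at hE
    exact ⟨phi0 (Fin 0) q E, st_phi0 hE, crit_phi0 hE, fun h => by omega⟩
  | succ K ih =>
    intro E hE
    rcases Nat.eq_zero_or_pos K with h0 | h0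
    · subst h0
      obtain ⟨φ, h1, h2⟩ := K1 E hE
      exact ⟨φ, h1, h2.crit, fun _ => h2⟩
    · obtain ⟨k, hk⟩ := hev
      have hk2 : q = 2 * k := by omega
      have hh : q ^ (K + 1) = 2 * (q ^ (K + 1) / 2) := by
        have : 2 ∣ q ^ (K + 1) := dvd_pow ⟨k, hk2⟩ (by omega)
        omega
      set h := q ^ (K + 1) / 2 with hhdef
      have hpos : 0 < h := by
        have : 0 < q ^ (K + 1) := by positivity
        omega
      have hE' : E ≤ q * h := by
        have h3 : q ^ (K + 1 + 1) = q * (2 * h) := by rw [pow_succ, hh]; ring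
        have h4 : q * (2 * h) = 2 * (q * h) := by ring
        omega
      obtain ⟨s, E', hs, hE2, hE3⟩ : ∃ s E', s + 1 ≤ q ∧ 2 * E' ≤ q ^ (K + 1) ∧ E = E' + s * h := by
        rcases Nat.lt_or_ge (E / h) q with h5 | h5
        · refine ⟨E / h, E % h, h5, ?_, ?_⟩
          · have := Nat.mod_lt E hpos
            omega
          · have := Nat.mod_add_div E h
            rw [mul_comm] at this
            exact this.symm
        · have h6 : E = q * h := le_antisymm hE' (by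
            have := (Nat.le_div_iff_mul_le hpos).mp h5
            exact this)
          refine ⟨q - 1, h, by omega, by omega, ?_⟩
          have h7 : q = (q - 1) + 1 := by omega
          rw [h6]
          nth_rewrite 1 [h7]
          ring
      obtain ⟨ψ, hψ, _, hψZ⟩ := ih E' hE2
      obtain ⟨φ, h1, h2⟩ := S2 K E' s ψ h0 hs hψ (hψZ h0)
      rw [← hE3] at h1
      refine ⟨tr (finSuccEquiv K).symm φ, h1.congr _, (h2.congr _).crit, fun _ => h2.congr _⟩

/-- (U) with the condition `Crit`, from the modules -/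
theorem u_crit {q : ℕ} (hq : 2 ≤ q)
    (K1 : Even q → ∀ E, 2 * E ≤ q ^ 2 → ∃ φ : MvPolynomial (Option (Option (Fin 1))) ℂ, St (Fin 1) q E φ ∧ ZZ φ)
    (S2 : Even q → ∀ (K E s : ℕ) (ψ : MvPolynomial (Option (Option (Fin K))) ℂ), 1 ≤ K → s + 1 ≤ q →
      St (Fin K) q E ψ → ZZ ψ → ∃ φ : MvPolynomial (Option (Option (Option (Fin K)))) ℂ,
        St (Option (Fin K)) q (E + s * (q ^ (K + 1) / 2)) φ ∧ ZZ φ)
    (Uodd : Odd q → ∀ K E, 2 * E ≤ q ^ (K + 1) → ∃ φ : MvPolynomial (Option (Option (Fin K))) ℂ, St (Fin K) q E φ)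
    (K E : ℕ) (h : 2 * E ≤ q ^ (K + 1)) :
    ∃ φ : MvPolynomial (Option (Option (Fin K))) ℂ, St (Fin K) q E φ ∧ Crit φ := by
  rcases Nat.even_or_odd q with he | ho
  · obtain ⟨φ, h1, h2, _⟩ := u_even hq he (K1 he) (S2 he) K E h
    exact ⟨φ, h1, h2⟩
  · obtain ⟨φ, h1⟩ := Uodd ho K E h
    obtain ⟨m, hm⟩ := ho
    obtain ⟨c, h2, h3⟩ := exists_ZZ (m := m + 1) (by omega) h1
    exact ⟨_, h2, h3.crit⟩

end EY
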