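import Pool.Agent.helper46.U.Tran
import Pool.Agent.helper74.EY.Sard

set_option autoImplicit false
set_option linter.unusedSectionVars false

/-!
# U-Base: level `K = 0`; the condition `ZZ` for odd `q`
-/

namespace EY

open MvPolynomial

/-! ### critical points of weighted homogeneous polynomials have value zero -/

theorem wh.eval_zero {σ : Type*} [Fintype σ] {v : σ → ℕ} {n : ℕ} {ψ : MvPolynomial σ ℂ} (h : wh v n ψ)
    (hn : n ≠ 0) {p : σ → ℂ} (hp : ∀ i, eval p (pderiv i ψ) = 0) : eval p ψ = 0 := by
  have := euler_eval h p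
  rw [Finset.sum_eq_zero fun i _ => by rw [hp i]; ring] at this
  rcases mul_eq_zero.mp this.symm with h | h
  · exact absurd (by exact_mod_cast h) hn
  · exact h

/-! ### odd `q`: add `c σ^((q+1)/2)` -/

section odd

variable {τ : Type} [Fintype τ] [DecidableEq τ] {q E : ℕ}

/-- For `q + 1 = 2 m` the form `φ + c σ^m` is a state with the same `E`; for general `c` it satisfies `ZZ`. -/
theorem exists_ZZ {m : ℕ} (hm : q + 1 = 2 * m) {φ : MvPolynomial (Option (Option τ)) ℂ} (h : St τ q E φ) :
    ∃ c : ℂ, St τ q E (φ + C c * X none ^ m) ∧ ZZ (φ + C c * X none ^ m) := by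
  classical
  have hfin := sard φ (X none ^ m)
  obtain ⟨c, hc⟩ := hfin.infinite_compl.nonempty
  have hder : ∀ v : Option τ, pderiv (some v) (φ + C c * X none ^ m) = pderiv (some v) φ := by
    intro v
    rw [map_add, pderiv_C_mul, Derivation.leibniz_pow, pderiv_X_of_ne (by simp)]
    simp
  have hwh : wh (vw τ) (q + 1) (φ + C c * X none ^ m) := by
    refine wh_add h.wh (wh_C_mul _ ?_)
    rw [hm]
    exact wh_pow (wh_X (vw τ) none) m
  have hcrit : critOne (φ + C c * X none ^ m) = critOne φ := by
    funext o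
    unfold critOne
    rw [hder]
  refine ⟨c, ⟨hwh, ?_, ?_, ?_, ?_⟩, ?_⟩
  · intro p h0 h1 hp
    exact h.ndx p h0 h1 fun i => by rw [← hder]; exact hp i
  · intro p h0 hp
    exact h.nd p h0 fun v => by rw [← hder]; exact hp v
  · rw [hcrit]; exact h.fin
  · unfold Enum; rw [hcrit]; exact h.len
  · intro p hp
    have hv := hwh.eval_zero (Nat.succ_ne_zero q) hp
    have hM : eval p (X none ^ m) = 0 := by
      by_contra hne
      exact hc ⟨p, hne, hv, hp⟩
    have hs : p none = 0 := by
      rw [map_pow, eval_X] at hM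
      exact pow_eq_zero_iff (by omega) |>.mp hM
    exact h.nd p hs fun v => by rw [← hder]; exact hp (some v)

end odd

/-! ### level `K = 0` -/

section zero

variable {q E : ℕ}

/-- `w^(q+1) + σ^E w^(q+1-2E)` -/
noncomputable def phi0 (τ : Type) (q E : ℕ) : MvPolynomial (Option (Option τ)) ℂ :=
  X (some none) ^ (q + 1) + X none ^ E * X (some none) ^ (q + 1 - 2 * E)

theorem wh_phi0 {τ : Type} [Fintype τ] (h : 2 * E ≤ q) : wh (vw τ) (q + 1) (phi0 τ q E) := by
  refine wh_add ?_ ?_
  · have := wh_pow (wh_X (vw τ) (some none)) (q + 1)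
    simpa [vw] using this
  · have := wh_mul (wh_pow (wh_X (vw τ) none) E) (wh_pow (wh_X (vw τ) (some none)) (q + 1 - 2 * E))
    have h2 : vw τ none * E + vw τ (some none) * (q + 1 - 2 * E) = q + 1 := by
      simp only [vw, Option.elim]; omega
    rwa [h2] at this

theorem pderiv_w_phi0 {τ : Type} (h : 2 * E ≤ q) : pderiv (some none) (phi0 τ q E) =
    C ((q : ℂ) + 1) * X (some none) ^ q + C ((q + 1 - 2 * E : ℕ) : ℂ) * (X none ^ E * X (some none) ^ (q - 2 * E)) := by
  classical
  unfold phi0
  rw [map_add, Derivation.leibniz_pow, Derivation.leibniz, Derivation.leibniz_pow, Derivation.leibniz_pow,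
    pderiv_X_self, pderiv_X_of_ne (by simp)]
  have h1 : q + 1 - 2 * E - 1 = q - 2 * E := by omega
  rw [h1]
  simp only [smul_eq_mul, mul_one, nsmul_eq_mul, Nat.add_sub_cancel]
  have h2 : (C ((q : ℂ) + 1) : MvPolynomial (Option (Option τ)) ℂ) = ((q + 1 : ℕ) : MvPolynomial _ ℂ) := by
    rw [← map_natCast C]; push_cast; rfl
  have h3 : (C ((q + 1 - 2 * E : ℕ) : ℂ) : MvPolynomial (Option (Option τ)) ℂ) =
      ((q + 1 - 2 * E : ℕ) : MvPolynomial _ ℂ) := map_natCast C _
  rw [h2, h3]
  ring

theorem pderiv_s_phi0 {τ : Type} : pderiv none (phi0 τ q E) =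
    (E : MvPolynomial (Option (Option τ)) ℂ) * X none ^ (E - 1) * X (some none) ^ (q + 1 - 2 * E) := by
  classical
  unfold phi0
  rw [map_add, Derivation.leibniz_pow, Derivation.leibniz, Derivation.leibniz_pow, Derivation.leibniz_pow,
    pderiv_X_self, pderiv_X_of_ne (by simp)]
  simp only [smul_eq_mul, mul_one, nsmul_eq_mul]
  ring

theorem crit_phi0 {τ : Type} [IsEmpty τ] (h : 2 * E ≤ q) : Crit (phi0 τ q E) := by
  intro p hp v
  rcases v with _ | v
  · have h1 := hp (some none)
    have h2 := hp none
    rw [pderiv_w_phi0 h] at h1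
    rw [pderiv_s_phi0] at h2
    simp only [map_add, map_mul, map_pow, eval_C, eval_X, map_natCast] at h1 h2
    by_contra hw
    rcases Nat.eq_zero_or_pos E with h0 | h0
    · subst h0
      simp only [mul_zero, Nat.sub_zero, pow_zero, one_mul, Nat.cast_add, Nat.cast_one] at h1
      have h3 : (2 : ℂ) * ((q : ℂ) + 1) * p (some none) ^ q = 0 := by linear_combination h1
      have h4 : (q : ℂ) + 1 ≠ 0 := by exact_mod_cast Nat.succ_ne_zero q
      simp [h4, hw] at h3
    · have h3 : p none ^ (E - 1) = 0 := by
        rcases mul_eq_zero.mp h2 with h4 | h4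
        · rcases mul_eq_zero.mp h4 with h5 | h5
          · exact absurd (by exact_mod_cast h5) h0.ne'
          · exact h5
        · exact absurd (pow_eq_zero_iff (by omega) |>.mp h4) hw
      have h5 : p none ^ E = 0 := by
        have h6 : E = (E - 1) + 1 := by omega
        rw [h6, pow_succ, h3, zero_mul]
      rw [h5, zero_mul, mul_zero, add_zero] at h1
      have h4 : (q : ℂ) + 1 ≠ 0 := by exact_mod_cast Nat.succ_ne_zero q
      simp [h4, hw] at h1
  · exact isEmptyElim v

theorem st_phi0 {τ : Type} [Fintype τ] [DecidableEq τ] [IsEmpty τ] (h : 2 * E ≤ q) :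
    St τ q E (phi0 τ q E) := by
  have hq0 : (q : ℂ) + 1 ≠ 0 := by exact_mod_cast Nat.succ_ne_zero q
  have hcr : critOne (phi0 τ q E) none = C ((q : ℂ) + 1) + C ((q + 1 - 2 * E : ℕ) : ℂ) * X none ^ E := by
    unfold critOne
    rw [pderiv_w_phi0 h]
    simp [ev1]
  have hfl : Module.Finite ℂ (MvPolynomial (Option τ) ℂ ⧸ Ideal.span (Set.range (critOne (phi0 τ q E)))) ∧
      Enum (phi0 τ q E) = E := by
    rcases Nat.eq_zero_or_pos E with h0 | h0
    · subst h0
      have h1 : Ideal.span (Set.range (critOne (phi0 τ q 0))) = ⊤ := by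
        rw [Ideal.eq_top_iff_one]
        have h2 : critOne (phi0 τ q 0) none = C (2 * ((q : ℂ) + 1)) := by
          rw [hcr]
          simp only [mul_zero, Nat.sub_zero, pow_zero, mul_one, ← C_add]
          congr 1
          push_cast
          ring
        have h3 : critOne (phi0 τ q 0) none ∈ Ideal.span (Set.range (critOne (phi0 τ q 0))) :=
          Ideal.subset_span ⟨none, rfl⟩
        have h4 := Ideal.mul_mem_left _ (C (2 * ((q : ℂ) + 1))⁻¹) h3
        rw [h2, ← C_mul, inv_mul_cancel₀ (mul_ne_zero two_ne_zero hq0), C_1] at h4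
        exact h4
      unfold Enum
      rw [h1]
      have : Subsingleton (MvPolynomial (Option τ) ℂ ⧸ (⊤ : Ideal (MvPolynomial (Option τ) ℂ))) :=
        Ideal.Quotient.subsingleton_iff.mpr rfl
      exact ⟨inferInstance, Module.finrank_zero_of_subsingleton⟩
    · obtain ⟨h1, h2⟩ := wAff (σ := Option τ) (w := fun _ => 1) (fun _ => one_pos)
        (f := critOne (phi0 τ q E)) (g := fun _ => C ((q + 1 - 2 * E : ℕ) : ℂ) * X none ^ E)
        (d := fun _ => E) (fun _ => h0)
        (fun i => by
          have := wh_C_mul ((q + 1 - 2 * E : ℕ) : ℂ) (wh_pow (wh_X (fun _ : Option τ => 1) none) E)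
          rwa [one_mul] at this)
        (by
          intro x hx
          have h3 := hx none
          simp only [map_mul, map_pow, eval_C, eval_X] at h3
          have h4 : ((q + 1 - 2 * E : ℕ) : ℂ) ≠ 0 := by
            have : q + 1 - 2 * E ≠ 0 := by omega
            exact_mod_cast this
          have h5 := pow_eq_zero_iff (by omega) |>.mp ((mul_eq_zero.mp h3).resolve_left h4)
          funext o
          rcases o with _ | v
          · exact h5
          · exact isEmptyElim v)
        (by
          intro i
          rcases i with _ | v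
          · rw [hcr]
            have h3 : wh (fun _ : Option τ => 1) E
                (C ((q + 1 - 2 * E : ℕ) : ℂ) * X none ^ E : MvPolynomial (Option τ) ℂ) := by
              have := wh_C_mul ((q + 1 - 2 * E : ℕ) : ℂ) (wh_pow (wh_X (fun _ : Option τ => 1) none) E)
              rwa [one_mul] at this
            rw [add_comm]
            exact (Top.self h3.wlt).add_lo (wlt_mono (by omega) (wh_C _ _).wlt)
          · exact isEmptyElim v)
      refine ⟨h1, ?_⟩
      unfold Enum
      rw [Fintype.prod_option, Fintype.prod_option] at h2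
      simpa using h2
  refine ⟨wh_phi0 h, ?_, ?_, hfl.1, hfl.2⟩
  · intro p h0 h1 _
    funext o
    rcases o with _ | _ | v
    · exact h0
    · exact h1
    · exact isEmptyElim v
  · intro p h0 hp
    have h1 := hp none
    rw [pderiv_w_phi0 h] at h1
    simp only [map_add, map_mul, map_pow, eval_C, eval_X] at h1
    rw [h0] at h1
    have h2 : p (some none) = 0 := by
      by_contra hw
      rcases Nat.eq_zero_or_pos E with h5 | h5
      · subst h5
        simp only [mul_zero, Nat.sub_zero, pow_zero, one_mul, Nat.cast_add, Nat.cast_one] at h1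
        have h3 : (2 : ℂ) * ((q : ℂ) + 1) * p (some none) ^ q = 0 := by linear_combination h1
        simp [hq0, hw] at h3
      · rw [zero_pow h5.ne', zero_mul, mul_zero, add_zero] at h1
        simp [hq0, hw] at h1
    funext o
    rcases o with _ | _ | v
    · exact h0
    · exact h2
    · exact isEmptyElim v

end zero

end EY
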