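import Pool.Agent.helper46.U.K1
import Pool.Agent.helper66.UU.S2
import Pool.Agent.helper44.U.UOdd

set_option autoImplicit false
set_option linter.unusedSectionVars false

/-!
# U-Final: the theorem (U) for every `q ≥ 2`, and the states `T4St` for even `q`
-/

namespace EY

open MvPolynomial

/-- (U): states with every `E ≤ q^(K+1)/2`, with the condition `Crit` -/
theorem U_crit {q : ℕ} (hq : 2 ≤ q) (K E : ℕ) (h : 2 * E ≤ q ^ (K + 1)) :
    ∃ φ : MvPolynomial (Option (Option (Fin K))) ℂ, St (Fin K) q E φ ∧ Crit φ :=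
  u_crit hq
    (fun hev E hE => by
      obtain ⟨φ, h⟩ := k1_stB hq hev E hE
      exact ⟨φ, h.st, h.zz⟩)
    (fun hev K E s ψ _ hs h hZ => EY.S2.s2 hq hev K E s ψ hs h hZ)
    (fun hodd K E hE => u_odd hodd hq K E hE) K E h

/-- (U) without the condition `Crit` -/
theorem U_state {q : ℕ} (hq : 2 ≤ q) (K E : ℕ) (h : 2 * E ≤ q ^ (K + 1)) :
    ∃ φ : MvPolynomial (Option (Option (Fin K))) ℂ, St (Fin K) q E φ := by
  obtain ⟨φ, h1, _⟩ := U_crit hq K E h
  exact ⟨φ, h1⟩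

/-- the states `T4St` for even `q` -/
theorem t4_states {q : ℕ} (hq : 2 ≤ q) (hev : Even q) (K E : ℕ) (h : 2 * E ≤ q ^ (K + 2)) :
    ∃ φ : MvPolynomial (Option (Option (Option (Fin K)))) ℂ, T4St (Fin K) q E φ :=
  t4_even (stB_even hq hev (k1_stB hq hev)
    (fun K E s ψ _ hs h hZ => EY.S2.s2_ev hq hev K E s ψ hs h hZ) K E h)

/-- the states for `q = 4` -/
theorem u4' (K E : ℕ) (h2 : E ≤ 2 * 4 ^ (K + 1)) :
    ∃ φ : MvPolynomial (Option (Option (Option (Fin K)))) ℂ, T4St (Fin K) 4 E φ :=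
  t4_states (q := 4) (by norm_num) ⟨2, rfl⟩ K E (by
    have : 4 ^ (K + 2) = 4 * 4 ^ (K + 1) := by rw [pow_succ 4 (K + 1)]; ring
    omega)

end EY
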