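import Pool.Agent.helper46.U.Gen

set_option autoImplicit false
set_option linter.unusedSectionVars false

/-!
# U-GenB: inheritance of the conditions on a coordinate `b` (`no critical line in b = 0`)
-/

namespace EY

open MvPolynomial Filter Topology

/-- no critical line of `ψ` (in the variables `x`) lies in `x_b = 0` -/
def NBs {ι : Type} (b : ι) (ψ : MvPolynomial (Option ι) ℂ) : Prop :=
  ∀ p : Option ι → ℂ, p (some b) = 0 → (∀ i : ι, eval p (pderiv (some i) ψ) = 0) → p = 0

/-- `ψ(0; x)` is nonsingular on `x_b = 0` -/
def NZs {ι : Type} (b : ι) (ψ : MvPolynomial (Option ι) ℂ) : Prop :=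
  ∀ p : Option ι → ℂ, p none = 0 → p (some b) = 0 → (∀ i : ι, i ≠ b → eval p (pderiv (some i) ψ) = 0) → p = 0

/-- the conditions `nb`, `nz` of `T4St` for the coordinate `b` -/
structure TB {ι : Type} (b : ι) (φ : MvPolynomial (Option (Option ι)) ℂ) : Prop where
  nb : ∀ p : Option (Option ι) → ℂ, p (some none) = 0 → p (some (some b)) = 0 →
    (∀ i : ι, eval p (pderiv (some (some i)) φ) = 0) → p = 0
  nz : ∀ p : Option (Option ι) → ℂ, p none = 0 → p (some none) = 0 → p (some (some b)) = 0 →
    (∀ i : ι, i ≠ b → eval p (pderiv (some (some i)) φ) = 0) → p = 0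

section

variable {ι : Type} [Fintype ι] [DecidableEq ι] {q : ℕ}

/-- openness for systems of weighted homogeneous polynomials (weights `2, 1, ..., 1`) -/
theorem gen_open {J : Type*} (P Q : J → MvPolynomial (Option (Option ι)) ℂ) (n : J → ℕ)
    (hP : ∀ j, wh (vw ι) (n j) (P j)) (hQ : ∀ j, wh (vw ι) (n j) (Q j))
    (h0 : ∀ p : Option (Option ι) → ℂ, (∀ j, eval p (P j) = 0) → p = 0) :
    ∀ᶠ ε in 𝓝 (0 : ℂ), ∀ p : Option (Option ι) → ℂ, (∀ j, eval p (P j + C ε * Q j) = 0) → p = 0 := by
  have e1 : ∀ᶠ ε in 𝓝 (0 : ℂ), ∀ x : Option (Option ι) → ℂ,
      (∀ j : J, eval (ptS x) (P j) + ε * eval (ptS x) (Q j) = 0) → x = 0 := by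
    refine open_zero (fun j t x => eval (ptS x) (P j) + t * eval (ptS x) (Q j)) n ?_ ?_ 0 ?_
    · intro j
      exact continuous_evalpt (continuous_ptS (ι := ι)) (P j) (Q j)
    · intro j t c x
      rw [eval_ptS_smul (hP j), eval_ptS_smul (hQ j)]
      ring
    · intro x hx
      have h1 := h0 (ptS x) fun j => by
        have := hx j
        simpa using this
      funext o
      rcases o with _ | i
      · exact pow_eq_zero_iff two_ne_zero |>.mp (congrFun h1 none)
      · exact congrFun h1 (some i)
  filter_upwards [e1] with ε h1
  intro p hp
  obtain ⟨s, hs⟩ := IsAlgClosed.exists_pow_nat_eq (p none) (n := 2) (by norm_num)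
  have hp' : ptS (fun o => o.elim s fun i => p (some i)) = p := by
    funext o
    rcases o with _ | i
    · exact hs
    · rfl
  have h3 := h1 (fun o => o.elim s fun i => p (some i)) (fun j => by
    rw [hp']
    have := hp j
    simpa using this)
  have hs0 : s = 0 := congrFun h3 none
  funext o
  rcases o with _ | i
  · rw [← hs, hs0]; simp
  · exact congrFun h3 (some i)

variable {ψ : MvPolynomial (Option ι) ℂ} (hψ : wh (w21 ι) (q + 1) ψ)
  {B A : MvPolynomial (Option (Option ι)) ℂ} (hB : wh (vw ι) (q + 1) B) (hA : pderiv (some none) B = A)
  (hA0 : ∀ p : Option (Option ι) → ℂ, p none = 0 → (∀ i, p (some (some i)) = 0) → eval p A = 0 →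
      p (some none) = 0)

include hψ hB hA hA0

theorem gen_NBs {b : ι} (hb : NBs b ψ) :
    ∀ᶠ ε in 𝓝 (0 : ℂ), ε ≠ 0 → NBs (some b) (up ψ + C ε * B) := by
  have hup := wh_up hψ
  have e1 := gen_open (J := Option (Option ι))
    (fun j => j.elim (X (some (some b))) fun o => o.elim A fun i => pderiv (some (some i)) (up ψ))
    (fun j => j.elim 0 fun o => o.elim 0 fun i => pderiv (some (some i)) B)
    (fun j => j.elim 1 fun _ => q)
    (by
      rintro (_ | _ | i)
      · exact wh_X (vw ι) (some (some b))
      · rw [← hA]; exact wh_pderiv hB _ _ rfl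
      · exact wh_pderiv hup _ _ rfl)
    (by
      rintro (_ | _ | i)
      · exact wh_zero _ _
      · exact wh_zero _ _
      · exact wh_pderiv hB _ _ rfl)
    (by
      intro p hp
      have h1 : p (some (some b)) = 0 := by simpa using hp none
      have h2 := hb (fun o => p (Option.map some o)) h1 (fun i => by
        have h3 := hp (some (some i))
        have h4 : eval p (pderiv (some (some i)) (up ψ)) = 0 := h3
        rwa [pderiv_up_some, eval_up] at h4)
      have h5 : p none = 0 := congrFun h2 none
      have h6 : ∀ i, p (some (some i)) = 0 := fun i => congrFun h2 (some i)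
      have h7 := hA0 p h5 h6 (hp (some none))
      funext o
      rcases o with _ | _ | i
      · exact h5
      · exact h7
      · exact h6 i)
  filter_upwards [e1] with ε h1 hε
  intro p hp0 hp
  refine h1 p ?_
  rintro (_ | _ | i)
  · simpa using hp0
  · have h4 := hp none
    rw [map_add, pderiv_C_mul, pderiv_up_w, zero_add, hA, map_mul, eval_C] at h4
    have h5 := (mul_eq_zero.mp h4).resolve_left hε
    simpa using h5
  · have h4 := hp (some i)
    rw [map_add, pderiv_C_mul] at h4
    exact h4

theorem gen_NZs {b : ι} (hb : NZs b ψ) :
    ∀ᶠ ε in 𝓝 (0 : ℂ), ε ≠ 0 → NZs (some b) (up ψ + C ε * B) := by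
  have hup := wh_up hψ
  have e1 := gen_open (J := Option (Option (Option ι)))
    (fun j => j.elim (X none) fun j => j.elim (X (some (some b))) fun o =>
      o.elim A fun i => if i = b then 0 else pderiv (some (some i)) (up ψ))
    (fun j => j.elim 0 fun j => j.elim 0 fun o => o.elim 0 fun i => if i = b then 0 else pderiv (some (some i)) B)
    (fun j => j.elim 2 fun j => j.elim 1 fun _ => q)
    (by
      rintro (_ | _ | _ | i)
      · exact wh_X (vw ι) none
      · exact wh_X (vw ι) (some (some b))
      · rw [← hA]; exact wh_pderiv hB _ _ rfl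
      · simp only [Option.elim]
        split_ifs
        · exact wh_zero _ _
        · exact wh_pderiv hup _ _ rfl)
    (by
      rintro (_ | _ | _ | i)
      · exact wh_zero _ _
      · exact wh_zero _ _
      · exact wh_zero _ _
      · simp only [Option.elim]
        split_ifs
        · exact wh_zero _ _
        · exact wh_pderiv hB _ _ rfl)
    (by
      intro p hp
      have h0 : p none = 0 := by simpa using hp none
      have h1 : p (some (some b)) = 0 := by simpa using hp (some none)
      have h2 := hb (fun o => p (Option.map some o)) h0 h1 (fun i hi => by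
        have h3 := hp (some (some (some i)))
        simp only [Option.elim, if_neg hi] at h3
        rwa [pderiv_up_some, eval_up] at h3)
      have h6 : ∀ i, p (some (some i)) = 0 := fun i => congrFun h2 (some i)
      have h7 := hA0 p h0 h6 (hp (some (some none)))
      funext o
      rcases o with _ | _ | i
      · exact h0
      · exact h7
      · exact h6 i)
  filter_upwards [e1] with ε h1 hε
  intro p hp0 hpb hp
  refine h1 p ?_
  rintro (_ | _ | _ | i)
  · simpa using hp0
  · simpa using hpb
  · have h4 := hp none (by simp)
    rw [map_add, pderiv_C_mul, pderiv_up_w, zero_add, hA, map_mul, eval_C] at h4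
    have h5 := (mul_eq_zero.mp h4).resolve_left hε
    simpa using h5
  · simp only [Option.elim]
    split_ifs with hi
    · simp
    · have h4 := hp (some i) (by simpa using hi)
      rw [map_add, pderiv_C_mul] at h4
      exact h4

omit hA0 in
theorem gen_TB {b : ι} (hb : NBs b ψ) (hz : NZs b ψ) :
    ∀ᶠ ε in 𝓝 (0 : ℂ), ε ≠ 0 → TB b (up ψ + C ε * B) := by
  have hup := wh_up hψ
  have e1 := gen_open (J := Option (Option ι))
    (fun j => j.elim (X (some (some b))) fun o => o.elim (X (some none)) fun i => pderiv (some (some i)) (up ψ))
    (fun j => j.elim 0 fun o => o.elim 0 fun i => pderiv (some (some i)) B)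
    (fun j => j.elim 1 fun o => o.elim 1 fun _ => q)
    (by
      rintro (_ | _ | i)
      · exact wh_X (vw ι) (some (some b))
      · exact wh_X (vw ι) (some none)
      · exact wh_pderiv hup _ _ rfl)
    (by
      rintro (_ | _ | i)
      · exact wh_zero _ _
      · exact wh_zero _ _
      · exact wh_pderiv hB _ _ rfl)
    (by
      intro p hp
      have h1 : p (some (some b)) = 0 := by simpa using hp none
      have h7 : p (some none) = 0 := by simpa using hp (some none)
      have h2 := hb (fun o => p (Option.map some o)) h1 (fun i => by
        have h3 := hp (some (some i))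
        have h4 : eval p (pderiv (some (some i)) (up ψ)) = 0 := h3
        rwa [pderiv_up_some, eval_up] at h4)
      funext o
      rcases o with _ | _ | i
      · exact congrFun h2 none
      · exact h7
      · exact congrFun h2 (some i))
  have e2 := gen_open (J := Option (Option (Option ι)))
    (fun j => j.elim (X none) fun j => j.elim (X (some (some b))) fun o =>
      o.elim (X (some none)) fun i => if i = b then 0 else pderiv (some (some i)) (up ψ))
    (fun j => j.elim 0 fun j => j.elim 0 fun o => o.elim 0 fun i => if i = b then 0 else pderiv (some (some i)) B)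
    (fun j => j.elim 2 fun j => j.elim 1 fun o => o.elim 1 fun _ => q)
    (by
      rintro (_ | _ | _ | i)
      · exact wh_X (vw ι) none
      · exact wh_X (vw ι) (some (some b))
      · exact wh_X (vw ι) (some none)
      · simp only [Option.elim]
        split_ifs
        · exact wh_zero _ _
        · exact wh_pderiv hup _ _ rfl)
    (by
      rintro (_ | _ | _ | i)
      · exact wh_zero _ _
      · exact wh_zero _ _
      · exact wh_zero _ _
      · simp only [Option.elim]
        split_ifs
        · exact wh_zero _ _
        · exact wh_pderiv hB _ _ rfl)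
    (by
      intro p hp
      have h0 : p none = 0 := by simpa using hp none
      have h1 : p (some (some b)) = 0 := by simpa using hp (some none)
      have h7 : p (some none) = 0 := by simpa using hp (some (some none))
      have h2 := hz (fun o => p (Option.map some o)) h0 h1 (fun i hi => by
        have h3 := hp (some (some (some i)))
        simp only [Option.elim, if_neg hi] at h3
        rwa [pderiv_up_some, eval_up] at h3)
      funext o
      rcases o with _ | _ | i
      · exact h0
      · exact h7
      · exact congrFun h2 (some i))
  filter_upwards [e1, e2] with ε h1 h2 _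
  refine ⟨?_, ?_⟩
  · intro p hpw hpb hp
    refine h1 p ?_
    rintro (_ | _ | i)
    · simpa using hpb
    · simpa using hpw
    · have h4 := hp i
      rw [map_add, pderiv_C_mul] at h4
      exact h4
  · intro p hp0 hpw hpb hp
    refine h2 p ?_
    rintro (_ | _ | _ | i)
    · simpa using hp0
    · simpa using hpb
    · simpa using hpw
    · simp only [Option.elim]
      split_ifs with hi
      · simp
      · have h4 := hp i hi
        rw [map_add, pderiv_C_mul] at h4
        exact h4

end

end EY
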