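import Pool.Agent.helper46.U.U4
import Pool.Agent.helper24.UU.B2

set_option autoImplicit false
set_option linter.unusedSectionVars false

/-!
# U-K1: the level `K = 1` for even `q`, with the conditions for the coordinate `b`
-/

namespace EY

open MvPolynomial Filter Topology

theorem b1_stB {h r : ℕ} (hh : 1 ≤ h) (hr : r ≤ h) : StB (Fin 1) (2 * h) r 0 (b1 h r) := by
  have hbs : ∀ p : Option (Option (Fin 1)) → ℂ, p (some (some 0)) = 0 →
      eval p (pderiv (some (some 0)) (b1 h r)) = 0 → p none = 0 := by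
    intro p h0 hb
    rw [ev_b, h0, mul_zero, zero_mul, sub_zero, zero_pow two_ne_zero, sub_zero] at hb
    exact eq_zero_of_pow_eq_zero hb
  refine ⟨b1_st hr, b1_ZZ hh hr, ?_, ?_, ?_, ?_⟩
  · intro p h0 hp
    exact b1_nb hr p h0 (hp none) (hp (some 0))
  · intro p h0 hb hp
    have h1 := hp none (by simp)
    rw [ev_w, h0, hb, zero_pow two_ne_zero, sub_zero, zero_sub] at h1
    refine ext3 h0 ?_ hb
    rcases mul_eq_zero.mp h1 with h2 | h2
    · exact eq_zero_of_pow_eq_zero h2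
    · have h3 := eq_zero_of_pow_eq_zero h2
      rw [neg_eq_zero] at h3
      exact eq_zero_of_pow_eq_zero h3
  · intro p hw hb hp
    exact ext3 (hbs p hb (hp 0)) hw hb
  · intro p h0 hw hb _
    exact ext3 h0 hw hb

/-- the states with one variable, `q` even -/
theorem k1_stB {q : ℕ} (hq : 2 ≤ q) (hev : Even q) (E : ℕ) (hE : 2 * E ≤ q ^ 2) :
    ∃ φ : MvPolynomial (Option (Option (Fin 1))) ℂ, StB (Fin 1) q E 0 φ := by
  obtain ⟨h, hh⟩ := hev
  have hh2 : q = 2 * h := by omega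
  subst hh2
  have hh1 : 1 ≤ h := by omega
  have hE' : E ≤ 2 * h * h := by
    have : (2 * h) ^ 2 = 2 * (2 * h * h) := by ring
    omega
  rcases le_or_gt E h with h1 | h1
  · exact ⟨_, b1_stB hh1 h1⟩
  · obtain ⟨c, D, h2, h3, h4, rfl⟩ := b2_value hh1 h1 hE'
    obtain ⟨ψ, B, A, g1, _, g3, g4, g5, g6, g⟩ := b2_ev hh1 h2 h3 h4
    have hone : ∀ i : Fin 1, i = 0 := fun i => Subsingleton.elim _ _
    have n1 : NBs (0 : Fin 1) ψ := NBs_of_ZZ hone ⟨h, rfl⟩ g1 g3
    have n2 : NZs (0 : Fin 1) ψ := by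
      intro p h0 hb _
      funext o
      rcases o with _ | i
      · exact h0
      · rw [hone i]; exact hb
    have e1 := gen_NBs g1 g4 g5 g6 n1
    have e2 := gen_NZs g1 g4 g5 g6 n2
    have e3 := gen_TB g1 g4 g5 n1 n2
    obtain ⟨ε, hε, f1, f2, f3, f4⟩ := exists_ne_of_eventually (g.and (e1.and (e2.and e3)))
    exact ⟨_, (f1 hε).1, (f1 hε).2, f2 hε, f3 hε, f4 hε⟩

end EY
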