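import Pool.Agent.helper46.U.GenB
import Pool.Agent.helper46.U.Asm
import Pool.Agent.helper51.EY.ZSt

set_option autoImplicit false
set_option linter.unusedSectionVars false

/-!
# U-U4: the states `T4St` for even `q` from the level `K = 1` and the step (S2)
-/

namespace EY

open MvPolynomial Filter Topology

/-- a weighted homogeneous polynomial of odd weight vanishes at the points `(σ; 0)` -/
theorem eval_odd_zero {ι : Type} [Fintype ι] {n : ℕ} (hn : Odd n) {ψ : MvPolynomial (Option ι) ℂ}
    (h : wh (w21 ι) n ψ) {p : Option ι → ℂ} (hp : ∀ i, p (some i) = 0) : eval p ψ = 0 := by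
  have h1 := eval_wh46 h (-1) p
  have h2 : (fun i => (-1 : ℂ) ^ w21 ι i * p i) = p := by
    funext o
    rcases o with _ | i
    · simp [w21]
    · simp [hp]
  rw [h2, hn.neg_one_pow] at h1
  have h3 : (2 : ℂ) * eval p ψ = 0 := by linear_combination h1
  simpa using h3

/-- for one variable `b`, odd weight: `ZZ` implies `NBs` -/
theorem NBs_of_ZZ {ι : Type} [Fintype ι] {b : ι} (hι : ∀ i, i = b) {n : ℕ} (hn : Odd n)
    {ψ : MvPolynomial (Option ι) ℂ} (h : wh (w21 ι) n ψ) (hZ : ZZ ψ) : NBs b ψ := by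
  classical
  intro p hp0 hp
  apply hZ
  rintro (_ | i)
  · rcases Nat.lt_or_ge n 2 with h1 | h1
    · -- `n = 1`
      have h2 : n = 1 := by
        rcases hn with ⟨k, hk⟩; omega
      subst h2
      have h3 : pderiv none ψ = 0 := by
        ext α
        rw [coeff_pderiv, coeff_zero]
        by_contra hc
        have h4 := h _ (left_ne_zero_of_mul hc)
        rw [wd_add, wd_single] at h4
        simp [w21] at h4
      rw [h3, map_zero]
    · have h5 : wh (w21 ι) (n - 2) (pderiv none ψ) := wh_pderiv h none _ (by simp [w21]; omega)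
      exact eval_odd_zero (by rcases hn with ⟨k, hk⟩; exact ⟨k - 1, by omega⟩) h5 fun i => by rw [hι i]; exact hp0
  · exact hp i

section

variable {τ τ' : Type} [Fintype τ] [Fintype τ'] (e : τ ≃ τ')

theorem NBs.congr {b : τ} {φ : MvPolynomial (Option (Option τ)) ℂ} (h : NBs (some b) φ) :
    NBs (some (e b)) (tr e φ) := by
  intro p hp0 hp
  have := h (fun o => p (e2 e o)) hp0 (fun i => by
    have h2 := hp (Equiv.optionCongr e i)
    have h3 := pderiv_tr e φ (some i)
    have h4 : e2 e (some i) = some (Equiv.optionCongr e i) := rfl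
    rw [h4] at h3
    rwa [h3, eval_tr] at h2)
  funext o
  have h5 := congrFun this ((e2 e).symm o)
  simpa using h5

theorem NZs.congr {b : τ} {φ : MvPolynomial (Option (Option τ)) ℂ} (h : NZs (some b) φ) :
    NZs (some (e b)) (tr e φ) := by
  intro p hp0 hpb hp
  have := h (fun o => p (e2 e o)) hp0 hpb (fun i hi => by
    have h2 := hp (Equiv.optionCongr e i) (by
      intro hc
      apply hi
      apply (Equiv.optionCongr e).injective
      exact hc)
    have h3 := pderiv_tr e φ (some i)
    have h4 : e2 e (some i) = some (Equiv.optionCongr e i) := rfl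
    rw [h4] at h3
    rwa [h3, eval_tr] at h2)
  funext o
  have h5 := congrFun this ((e2 e).symm o)
  simpa using h5

theorem TB.congr {b : τ} {φ : MvPolynomial (Option (Option τ)) ℂ} (h : TB b φ) : TB (e b) (tr e φ) where
  nb := by
    intro p hpw hpb hp
    have := h.nb (fun o => p (e2 e o)) hpw hpb (fun i => by
      have h2 := hp (e i)
      have h3 := pderiv_tr e φ (some (some i))
      have h4 : e2 e (some (some i)) = some (some (e i)) := rfl
      rw [h4] at h3
      rwa [h3, eval_tr] at h2)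
    funext o
    have h5 := congrFun this ((e2 e).symm o)
    simpa using h5
  nz := by
    intro p hp0 hpw hpb hp
    have := h.nz (fun o => p (e2 e o)) hp0 hpw hpb (fun i hi => by
      have h2 := hp (e i) (fun hc => hi (e.injective hc))
      have h3 := pderiv_tr e φ (some (some i))
      have h4 : e2 e (some (some i)) = some (some (e i)) := rfl
      rw [h4] at h3
      rwa [h3, eval_tr] at h2)
    funext o
    have h5 := congrFun this ((e2 e).symm o)
    simpa using h5

end

theorem T4St_of {ρ : Type} [Fintype ρ] {q E : ℕ} {φ : MvPolynomial (Option (Option (Option ρ))) ℂ}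
    (h : St (Option ρ) q E φ) (hT : TB (none : Option ρ) φ) : T4St ρ q E φ where
  st := h
  nb := by
    intro s z hz
    have h1 := hT.nb (zpt s 0 0 z) rfl rfl hz
    refine ⟨congrFun h1 none, ?_⟩
    funext r
    exact congrFun h1 (some (some (some r)))
  nz := by
    intro z hz
    have h1 := hT.nz (zpt 0 0 0 z) rfl rfl rfl (fun i hi => by
      rcases i with _ | r
      · exact absurd rfl hi
      · exact hz r)
    funext r
    exact congrFun h1 (some (some (some r)))

/-- a state together with the conditions for the coordinate `b` -/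
structure StB (τ : Type) [Fintype τ] (q E : ℕ) (b : τ) (φ : MvPolynomial (Option (Option τ)) ℂ) : Prop where
  st : St τ q E φ
  zz : ZZ φ
  nb : NBs (some b) φ
  nz : NZs (some b) φ
  tb : TB b φ

theorem StB.congr {τ τ' : Type} [Fintype τ] [Fintype τ'] (e : τ ≃ τ') {q E : ℕ} {b : τ}
    {φ : MvPolynomial (Option (Option τ)) ℂ} (h : StB τ q E b φ) : StB τ' q E (e b) (tr e φ) :=
  ⟨h.st.congr e, h.zz.congr e, h.nb.congr e, h.nz.congr e, h.tb.congr e⟩

/-- the states with the conditions for a coordinate, `q` even -/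
theorem stB_even {q : ℕ} (hq : 2 ≤ q) (hev : Even q)
    (K1 : ∀ E, 2 * E ≤ q ^ 2 → ∃ φ : MvPolynomial (Option (Option (Fin 1))) ℂ, StB (Fin 1) q E 0 φ)
    (S2 : ∀ (K E s : ℕ) (ψ : MvPolynomial (Option (Option (Fin K))) ℂ), 1 ≤ K → s + 1 ≤ q → St (Fin K) q E ψ →
      ZZ ψ → ∃ B A : MvPolynomial (Option (Option (Option (Fin K)))) ℂ, wh (vw (Option (Fin K))) (q + 1) B ∧
        pderiv (some none) B = A ∧
        (∀ p : Option (Option (Option (Fin K))) → ℂ, p none = 0 → (∀ i, p (some (some i)) = 0) → eval p A = 0 →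
          p (some none) = 0) ∧
        ∀ᶠ ε in 𝓝 (0 : ℂ), ε ≠ 0 → St (Option (Fin K)) q (E + s * (q ^ (K + 1) / 2)) (up ψ + C ε * B) ∧
          ZZ (up ψ + C ε * B)) :
    ∀ K E, 2 * E ≤ q ^ (K + 2) → ∃ (b : Fin (K + 1)) (φ : MvPolynomial (Option (Option (Fin (K + 1)))) ℂ),
      StB (Fin (K + 1)) q E b φ := by
  classical
  intro K
  induction K with
  | zero =>
    intro E hE
    obtain ⟨φ, h⟩ := K1 E hE
    exact ⟨0, φ, h⟩
  | succ K ih =>
    intro E hE
    obtain ⟨k, hk⟩ := hev
    have hk2 : q = 2 * k := by omega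
    have hh : q ^ (K + 1 + 1) = 2 * (q ^ (K + 1 + 1) / 2) := by
      have : 2 ∣ q ^ (K + 1 + 1) := dvd_pow ⟨k, hk2⟩ (by omega)
      omega
    set h := q ^ (K + 1 + 1) / 2 with hhdef
    have hpos : 0 < h := by
      have : 0 < q ^ (K + 1 + 1) := by positivity
      omega
    have hE' : E ≤ q * h := by
      have h3 : q ^ (K + 1 + 2) = q * (2 * h) := by
        rw [show K + 1 + 2 = (K + 1 + 1) + 1 by omega, pow_succ, hh]; ring
      have h4 : q * (2 * h) = 2 * (q * h) := by ring
      omega
    obtain ⟨s, E', hs, hE2, hE3⟩ : ∃ s E', s + 1 ≤ q ∧ 2 * E' ≤ q ^ (K + 1 + 1) ∧ E = E' + s * h := by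
      rcases Nat.lt_or_ge (E / h) q with h5 | h5
      · refine ⟨E / h, E % h, h5, ?_, ?_⟩
        · have := Nat.mod_lt E hpos
          omega
        · have := Nat.mod_add_div E h
          rw [mul_comm] at this
          exact this.symm
      · have h6 : E = q * h := le_antisymm hE' (by
          have := (Nat.le_div_iff_mul_le hpos).mp h5
          exact this)
        refine ⟨q - 1, h, by omega, by omega, ?_⟩
        have h7 : q = (q - 1) + 1 := by omega
        rw [h6]
        nth_rewrite 1 [h7]
        ring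
    obtain ⟨b, ψ, hψ⟩ := ih E' hE2
    obtain ⟨B, A, hB, hA, hA0, hev⟩ := S2 (K + 1) E' s ψ (by omega) hs hψ.st hψ.zz
    have g1 := gen_NBs (b := some b) hψ.st.wh hB hA hA0 hψ.nb
    have g2 := gen_NZs (b := some b) hψ.st.wh hB hA hA0 hψ.nz
    have g3 := gen_TB (b := some b) hψ.st.wh hB hA hψ.nb hψ.nz
    obtain ⟨ε, hε, h1, h2, h3, h4⟩ := exists_ne_of_eventually (hev.and (g1.and (g2.and g3)))
    obtain ⟨h5, h6⟩ := h1 hε
    rw [← hE3] at h5
    exact ⟨_, _, StB.congr (finSuccEquiv (K + 1)).symm (b := some b) ⟨h5, h6, h2 hε, h3 hε, h4 hε⟩⟩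

/-- the states `T4St` for even `q` -/
theorem t4_even {q : ℕ} {K E : ℕ}
    (h : ∃ (b : Fin (K + 1)) (φ : MvPolynomial (Option (Option (Fin (K + 1)))) ℂ), StB (Fin (K + 1)) q E b φ) :
    ∃ φ : MvPolynomial (Option (Option (Option (Fin K)))) ℂ, T4St (Fin K) q E φ := by
  classical
  obtain ⟨b, φ, hφ⟩ := h
  set e : Fin (K + 1) ≃ Option (Fin K) := (Equiv.swap b 0).trans (finSuccEquiv K) with he
  have h1 := StB.congr e hφ
  have h2 : e b = none := by
    rw [he, Equiv.trans_apply, Equiv.swap_apply_left, finSuccEquiv_zero]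
  rw [h2] at h1
  exact ⟨_, T4St_of h1.st h1.tb⟩

end EY
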